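import Pool.Agent.Helper17.CR.Stmts

/-!
# The weights of an abelian normal `q`-subgroup
-/

set_option autoImplicit false

namespace Pool.Agent.Helper17.CR

open Finset Module

universe u

section wt

variable {G : Type u} [Group G] {K W : Type} [Field K] [AddCommGroup W] [Module K W]

open Classical in
/-- the operators of `M`, zero outside of `M` -/
noncomputable def wtF (A : G →* Module.End K W) (M : Subgroup G) (x : G) : Module.End K W :=
  if x ∈ M then A x else 0

/-- joint eigenspace -/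
noncomputable def wtE (A : G →* Module.End K W) (M : Subgroup G) (χ : G → K) : Submodule K W :=
  ⨅ x, (wtF A M x).maxGenEigenspace (χ x)

theorem wt_comm (A : G →* Module.End K W) (M : Subgroup G) (hM : ∀ x ∈ M, ∀ y ∈ M, x * y = y * x)
    (x y : G) : Commute (wtF A M x) (wtF A M y) := by
  classical
  unfold wtF
  by_cases hx : x ∈ M
  · by_cases hy : y ∈ M
    · rw [if_pos hx, if_pos hy]
      change A x * A y = A y * A x
      rw [← map_mul, ← map_mul, hM x hx y hy]
    · rw [if_neg hy]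
      exact Commute.zero_right _
  · rw [if_neg hx]
    exact Commute.zero_left _

theorem wt_semisimple (A : G →* Module.End K W) (x : G) (n : ℕ) (hn : (n : K) ≠ 0)
    (hx : x ^ n = 1) : (A x).IsSemisimple := by
  refine Module.End.isSemisimple_of_squarefree_aeval_eq_zero
    (p := (Polynomial.X ^ n - 1 : Polynomial K))
    (Polynomial.X_pow_sub_one_separable_iff.2 hn).squarefree ?_
  rw [map_sub, map_pow, Polynomial.aeval_X, map_one, ← map_pow, hx, map_one, sub_self]

theorem wt_semisimple' (A : G →* Module.End K W) (M : Subgroup G)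
    (h : ∀ x ∈ M, ∃ n : ℕ, (n : K) ≠ 0 ∧ x ^ n = 1) (x : G) : (wtF A M x).IsSemisimple := by
  classical
  unfold wtF
  by_cases hx : x ∈ M
  · rw [if_pos hx]
    obtain ⟨n, hn, hx'⟩ := h x hx
    exact wt_semisimple A x n hn hx'
  · rw [if_neg hx]
    exact Module.End.isSemisimple_zero

theorem wt_mem (A : G →* Module.End K W) (M : Subgroup G)
    (h : ∀ x ∈ M, ∃ n : ℕ, (n : K) ≠ 0 ∧ x ^ n = 1) (χ : G → K) (w : W) :
    w ∈ wtE A M χ ↔ ∀ x, wtF A M x w = χ x • w := by
  unfold wtE
  rw [Submodule.mem_iInf]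
  refine forall_congr' fun x => ?_
  rw [(wt_semisimple' A M h x).isFinitelySemisimple.maxGenEigenspace_eq_eigenspace,
    Module.End.mem_eigenspace_iff]

theorem wt_main [FiniteDimensional K W] [IsAlgClosed K] (A : G →* Module.End K W)
    (M : Subgroup G) (hMn : M.Normal)
    (hM : ∀ x ∈ M, ∀ y ∈ M, x * y = y * x)
    (h : ∀ x ∈ M, ∃ n : ℕ, (n : K) ≠ 0 ∧ x ^ n = 1) (x0 : G) (hx0 : x0 ∈ M) (hA : A x0 ≠ 1) :
    ∃ Om : Finset (G → K), Om.card ≤ Module.finrank K W ∧
    (∀ χ ∈ Om, χ 1 = 1 ∧ (∀ x ∈ M, ∀ y ∈ M, χ (x * y) = χ x * χ y) ∧ ∀ x, x ∉ M → χ x = 0) ∧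
    (∀ χ ∈ Om, ∀ g : G, (fun x => χ (g * x * g⁻¹)) ∈ Om) ∧ ∃ χ ∈ Om, ∃ x ∈ M, χ x ≠ 1 := by
  classical
  have hmaps : ∀ i j φ, Set.MapsTo (wtF A M i) ((wtF A M j).maxGenEigenspace φ)
      ((wtF A M j).maxGenEigenspace φ) := fun i j φ =>
    Module.End.mapsTo_maxGenEigenspace_of_comm (wt_comm A M hM j i) φ
  have hind : iSupIndep (wtE A M) :=
    Module.End.independent_iInf_maxGenEigenspace_of_forall_mapsTo (wtF A M) hmaps
  have htop : ⨆ χ, wtE A M χ = ⊤ :=
    Module.End.iSup_iInf_maxGenEigenspace_eq_top_of_iSup_maxGenEigenspace_eq_top_of_commute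
      (wtF A M) (fun i j _ => wt_comm A M hM i j)
      (fun i => Module.End.iSup_maxGenEigenspace_eq_top _)
  let _ : Fintype {χ : G → K // wtE A M χ ≠ ⊥} := hind.fintypeNeBotOfFiniteDimensional
  have hcard := hind.subtype_ne_bot_le_finrank
  let Om : Finset (G → K) := (Finset.univ : Finset {χ : G → K // wtE A M χ ≠ ⊥}).map
    (Function.Embedding.subtype _)
  have hOm : ∀ χ, χ ∈ Om ↔ wtE A M χ ≠ ⊥ := by
    intro χ
    simp [Om]
  have hOm' : ∀ χ, χ ∈ Om ↔ ∃ w, w ≠ 0 ∧ ∀ x, wtF A M x w = χ x • w := by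
    intro χ
    rw [hOm, Submodule.ne_bot_iff]
    constructor
    · rintro ⟨w, hw, hw0⟩
      exact ⟨w, hw0, (wt_mem A M h χ w).1 hw⟩
    · rintro ⟨w, hw0, hw⟩
      exact ⟨w, (wt_mem A M h χ w).2 hw, hw0⟩
  refine ⟨Om, ?_, ?_, ?_, ?_⟩
  · simpa [Om] using hcard
  · intro χ hχ
    obtain ⟨w, hw0, hw⟩ := (hOm' χ).1 hχ
    have hpos : ∀ x ∈ M, A x w = χ x • w := by
      intro x hx
      have := hw x
      unfold wtF at this
      rw [if_pos hx] at this
      exact this
    refine ⟨?_, ?_, ?_⟩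
    · have h1 := hpos 1 M.one_mem
      rw [map_one, Module.End.one_apply] at h1
      have h2 : (1 - χ 1) • w = 0 := by
        rw [sub_smul, one_smul, ← h1, sub_self]
      rcases smul_eq_zero.1 h2 with h3 | h3
      · exact (sub_eq_zero.1 h3).symm
      · exact absurd h3 hw0
    · intro x hx y hy
      have h1 := hpos _ (M.mul_mem hx hy)
      rw [map_mul, Module.End.mul_apply, hpos y hy, map_smul, hpos x hx, smul_smul] at h1
      have h2 : (χ y * χ x - χ (x * y)) • w = 0 := by
        rw [sub_smul, h1, sub_self]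
      rcases smul_eq_zero.1 h2 with h3 | h3
      · rw [← sub_eq_zero.1 h3, mul_comm]
      · exact absurd h3 hw0
    · intro x hx
      have h1 := hw x
      unfold wtF at h1
      rw [if_neg hx, LinearMap.zero_apply] at h1
      rcases smul_eq_zero.1 h1.symm with h3 | h3
      · exact h3
      · exact absurd h3 hw0
  · intro χ hχ g
    obtain ⟨w, hw0, hw⟩ := (hOm' χ).1 hχ
    rw [hOm']
    have hAg : A g * A g⁻¹ = 1 := by rw [← map_mul, mul_inv_cancel, map_one]
    refine ⟨A g⁻¹ w, ?_, ?_⟩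
    · intro h0
      refine hw0 ?_
      have h1 : (A g * A g⁻¹) w = 0 := by
        rw [Module.End.mul_apply, h0, map_zero]
      rw [hAg, Module.End.one_apply] at h1
      exact h1
    · intro x
      have h1 := hw (g * x * g⁻¹)
      unfold wtF at h1 ⊢
      by_cases hx : x ∈ M
      · rw [if_pos (hMn.conj_mem x hx g)] at h1
        rw [if_pos hx]
        have h2 : A x * A g⁻¹ = A g⁻¹ * A (g * x * g⁻¹) := by
          rw [← map_mul, ← map_mul]
          congr 1
          group
        calc A x (A g⁻¹ w) = (A x * A g⁻¹) w := rfl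
          _ = (A g⁻¹ * A (g * x * g⁻¹)) w := by rw [h2]
          _ = A g⁻¹ (A (g * x * g⁻¹) w) := rfl
          _ = _ := by rw [h1, map_smul]
      · have hx' : g * x * g⁻¹ ∉ M := by
          intro hc
          refine hx ?_
          have h3 := hMn.conj_mem _ hc g⁻¹
          have e : g⁻¹ * (g * x * g⁻¹) * g⁻¹⁻¹ = x := by group
          rw [e] at h3
          exact h3
        rw [if_neg hx', LinearMap.zero_apply] at h1
        rw [if_neg hx, LinearMap.zero_apply]
        rcases smul_eq_zero.1 h1.symm with h3 | h3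
        · simp only [h3, zero_smul]
        · exact absurd h3 hw0
  · by_contra hcon
    push Not at hcon
    refine hA ?_
    have h1 : ∀ χ, wtE A M χ ≤ LinearMap.eqLocus (A x0) (1 : Module.End K W) := by
      intro χ
      by_cases hχ : wtE A M χ = ⊥
      · rw [hχ]
        exact bot_le
      · intro w hw
        have h2 := (wt_mem A M h χ w).1 hw x0
        unfold wtF at h2
        rw [if_pos hx0, hcon χ ((hOm χ).2 hχ) x0 hx0, one_smul] at h2
        exact h2
    have h2 : (⊤ : Submodule K W) ≤ LinearMap.eqLocus (A x0) (1 : Module.End K W) := by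
      rw [← htop]
      exact iSup_le h1
    exact LinearMap.ext fun w => h2 (Submodule.mem_top (x := w))

end wt

theorem st_WT : ST_WT.{u} := by
  intro G _ _ p _ V _ _ _ ρ hρ q M hq hqp hMn hMp hM1 hM
  classical
  let n := Module.finrank (ZMod p) V
  let b : Module.Basis (Fin n) (ZMod p) V := Module.finBasis (ZMod p) V
  let K := AlgebraicClosure (ZMod p)
  let φ : Module.End (ZMod p) V →+* Module.End K (Fin n → K) :=
    ((Matrix.toLinAlgEquiv' : Matrix (Fin n) (Fin n) K ≃ₐ[K] _) : Matrix (Fin n) (Fin n) K →+* _).comp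
      (((algebraMap (ZMod p) K).mapMatrix).comp
        ((LinearMap.toMatrixAlgEquiv b : Module.End (ZMod p) V ≃ₐ[ZMod p] _) :
          Module.End (ZMod p) V →+* Matrix (Fin n) (Fin n) (ZMod p)))
  have hφ : Function.Injective φ := by
    intro a a' h
    have h1 := (Matrix.toLinAlgEquiv' : Matrix (Fin n) (Fin n) K ≃ₐ[K] _).injective h
    have h2 : LinearMap.toMatrixAlgEquiv b a = LinearMap.toMatrixAlgEquiv b a' := by
      ext i j
      have h3 := congrFun (congrFun h1 i) j
      exact (algebraMap (ZMod p) K).injective h3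
    exact (LinearMap.toMatrixAlgEquiv b).injective h2
  let A : G →* Module.End K (Fin n → K) := (φ : Module.End (ZMod p) V →* _).comp ρ
  obtain ⟨x0, hx0, hx1⟩ : ∃ x ∈ M, x ≠ 1 := by
    by_contra hc
    push Not at hc
    refine hM1 ?_
    rw [Subgroup.eq_bot_iff_forall]
    exact hc
  have hA : A x0 ≠ 1 := by
    intro h1
    refine hx1 (hρ ?_)
    rw [map_one]
    refine hφ ?_
    rw [map_one]
    exact h1
  have hord : ∀ x ∈ M, ∃ n : ℕ, (n : K) ≠ 0 ∧ x ^ n = 1 := by
    intro x hx
    obtain ⟨k, hk⟩ := hMp ⟨x, hx⟩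
    refine ⟨q ^ k, ?_, ?_⟩
    · have hchar : CharP K p := inferInstance
      intro h1
      rw [CharP.cast_eq_zero_iff K p] at h1
      have h2 := (Nat.prime_dvd_prime_iff_eq (Fact.out : p.Prime) hq).1
        ((Fact.out : p.Prime).dvd_of_dvd_pow h1)
      exact hqp h2.symm
    · have h1 := congrArg Subtype.val hk
      simpa using h1
  obtain ⟨Om, h1, h2, h3, h4⟩ := wt_main A M hMn hM hord x0 hx0 hA
  refine ⟨K, inferInstance, Om, ?_, h2, h3, h4⟩
  rw [Module.finrank_fin_fun] at h1
  have h5 : Nat.card V = p ^ n := by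
    have h6 := Module.natCard_eq_pow_finrank (K := ZMod p) (V := V)
    rw [Nat.card_zmod] at h6
    exact h6
  rw [h5]
  exact Nat.pow_le_pow_right (Fact.out : p.Prime).pos h1

end Pool.Agent.Helper17.CR
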